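import Mathlib
import Pool.Agent.BSH.Stmts

set_option autoImplicit false

/-! Row BST of the squad BSH (Baur-Strassen). -/

namespace Pool.Agent.BSH.H5

open Pool.Agent.BSH

variable {E A : Type} [Field E] [CommRing A] [Algebra E A]

theorem sp_mono {B : Set A} {l l' : List A} (h : ∀ x ∈ l, x ∈ sp E B l') :
    sp E B l ≤ sp E B l' := by
  refine Submodule.span_le.2 ?_
  rintro x ((hx | hx) | hx)
  · exact Submodule.subset_span (Or.inl (Or.inl hx))
  · exact Submodule.subset_span (Or.inl (Or.inr hx))
  · exact h x hx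

theorem mem_sp_of_mem {B : Set A} {l : List A} {x : A} (h : x ∈ l) : x ∈ sp E B l :=
  Submodule.subset_span (Or.inr h)

theorem one_mem_sp {B : Set A} {l : List A} : (1 : A) ∈ sp E B l :=
  Submodule.subset_span (Or.inl (Or.inl rfl))

/-- The derivations in question. -/
def DD (E : Type) {A : Type} [Field E] [CommRing A] [Algebra E A] (B : Set A) : Type :=
  {D : Derivation E A A // ∀ x ∈ B, ∃ c : E, D x = algebraMap E A c}

/-- `x` is sent to `D ↦ x D g`. -/
def mulD (B : Set A) (g : A) : A →ₗ[E] (DD E B → A) where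
  toFun x := fun D => x * D.1 g
  map_add' x y := by
    funext D
    simp only [Pi.add_apply]
    ring
  map_smul' c x := by
    funext D
    simp only [Pi.smul_apply, RingHom.id_apply, smul_mul_assoc]

/-- The functions with values in `S`. -/
def cst (B : Set A) (S : Submodule E A) : Submodule E (DD E B → A) where
  carrier := {Φ | ∀ D, Φ D ∈ S}
  add_mem' := fun ha hb D => S.add_mem (ha D) (hb D)
  zero_mem' := fun _ => S.zero_mem
  smul_mem' := fun c _ hx D => S.smul_mem c (hx D)

/-- The functions `D ↦ ∑ c_g D g + s_D`, `c_g, s_D ∈ S`. -/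
def NN (B : Set A) (S : Submodule E A) : List A → Submodule E (DD E B → A)
  | [] => cst B S
  | g :: l => S.map (mulD B g) ⊔ NN B S l

theorem NN_mono {B : Set A} {S S' : Submodule E A} (h : S ≤ S') (l : List A) :
    NN B S l ≤ NN B S' l := by
  induction l with
  | nil => exact fun Φ hΦ D => h (hΦ D)
  | cons g l ih => exact sup_le_sup (Submodule.map_mono h) ih

theorem cst_le {B : Set A} {S : Submodule E A} (l : List A) : cst B S ≤ NN B S l := by
  induction l with
  | nil => exact le_refl _
  | cons g l ih => exact ih.trans le_sup_right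

theorem gen_mem {B : Set A} {S : Submodule E A} {l : List A} {g P : A} (hg : g ∈ l)
    (hP : P ∈ S) : mulD (E := E) B g P ∈ NN B S l := by
  induction l with
  | nil => exact absurd hg (List.not_mem_nil)
  | cons h l ih =>
    rcases List.mem_cons.1 hg with rfl | hg'
    · exact Submodule.mem_sup_left (Submodule.mem_map_of_mem hP)
    · exact Submodule.mem_sup_right (ih hg')

theorem mulD_mem {B : Set A} {S : Submodule E A} {l : List A} {a P : A} (ha : a ∈ sp E B l)
    (hP : P ∈ S) : mulD (E := E) B a P ∈ NN B S l := by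
  unfold sp at ha
  induction ha using Submodule.span_induction with
  | mem x hx =>
    rcases hx with (hx | hx) | hx
    · have : mulD (E := E) B x P = 0 := by
        funext D
        have h1 : x = 1 := hx
        change P * D.1 x = 0
        rw [h1, Derivation.map_one_eq_zero, mul_zero]
      rw [this]
      exact Submodule.zero_mem _
    · refine cst_le l ?_
      intro D
      obtain ⟨c, hc⟩ := D.2 x hx
      change P * D.1 x ∈ S
      rw [hc, mul_comm, ← Algebra.smul_def]
      exact S.smul_mem c hP
    · exact gen_mem hx hP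
  | zero =>
    have : mulD (E := E) B 0 P = 0 := by
      funext D
      change P * D.1 0 = 0
      rw [map_zero, mul_zero]
    rw [this]
    exact Submodule.zero_mem _
  | add x y _ _ hx hy =>
    have : mulD (E := E) B (x + y) P = mulD B x P + mulD B y P := by
      funext D
      change P * D.1 (x + y) = P * D.1 x + P * D.1 y
      rw [map_add, mul_add]
    rw [this]
    exact Submodule.add_mem _ hx hy
  | smul c x _ hx =>
    have : mulD (E := E) B (c • x) P = c • mulD B x P := by
      funext D
      change P * D.1 (c • x) = c • (P * D.1 x)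
      rw [Derivation.map_smul, mul_smul_comm]
    rw [this]
    exact Submodule.smul_mem _ c hx

theorem main (B : Set A) (l : List A) : Ch E B l → ∀ L : List A, sp E B l ≤ sp E B L →
    Ch E B L → ∀ Φ ∈ NN B (sp E B L) l,
    ∃ l' : List A, l'.length ≤ 2 * l.length ∧ Ch E B (l' ++ L) ∧
      ∀ D : DD E B, Φ D ∈ sp E B (l' ++ L) := by
  induction l with
  | nil =>
    intro _ L _ hL Φ hΦ
    exact ⟨[], by simp, hL, fun D => hΦ D⟩
  | cons g l ih =>
    intro hgl L hle hL Φ hΦ
    obtain ⟨hl, a, ha, b, hb, hg⟩ := hgl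
    obtain ⟨Ψ, hΨ, Φ', hΦ', rfl⟩ := Submodule.mem_sup.1 hΦ
    obtain ⟨c, hc, rfl⟩ := Submodule.mem_map.1 hΨ
    have hll : sp E B l ≤ sp E B L := by
      refine le_trans (sp_mono fun x hx => ?_) hle
      exact mem_sp_of_mem (List.mem_cons_of_mem _ hx)
    have haL := hll ha
    have hbL := hll hb
    set P := c * b with hPdef
    set Q := c * a with hQdef
    have hQL : Ch E B (Q :: L) := ⟨hL, c, hc, a, haL, rfl⟩
    have hLQ : sp E B L ≤ sp E B (Q :: L) :=
      sp_mono fun x hx => mem_sp_of_mem (List.mem_cons_of_mem _ hx)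
    have hPL : Ch E B (P :: Q :: L) := ⟨hQL, c, hLQ hc, b, hLQ hbL, rfl⟩
    have hLP : sp E B L ≤ sp E B (P :: Q :: L) :=
      sp_mono fun x hx => mem_sp_of_mem (List.mem_cons_of_mem _ (List.mem_cons_of_mem _ hx))
    have hP : P ∈ sp E B (P :: Q :: L) := mem_sp_of_mem List.mem_cons_self
    have hQ : Q ∈ sp E B (P :: Q :: L) :=
      mem_sp_of_mem (List.mem_cons_of_mem _ List.mem_cons_self)
    have heq : mulD (E := E) B g c = mulD B a P + mulD B b Q := by
      funext D
      change c * D.1 g = P * D.1 a + Q * D.1 b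
      rw [hg, Derivation.leibniz, smul_eq_mul, smul_eq_mul, hPdef, hQdef]
      ring
    have hmem : mulD (E := E) B g c + Φ' ∈ NN B (sp E B (P :: Q :: L)) l := by
      rw [heq]
      exact Submodule.add_mem _ (Submodule.add_mem _ (mulD_mem ha hP) (mulD_mem hb hQ))
        (NN_mono hLP l hΦ')
    obtain ⟨l', hlen, hch, hD⟩ := ih hl (P :: Q :: L) (hll.trans hLP) hPL _ hmem
    refine ⟨l' ++ [P, Q], ?_, ?_, ?_⟩
    · simp only [List.length_append, List.length_cons, List.length_nil]
      omega
    · rw [List.append_assoc]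
      exact hch
    · intro D
      rw [List.append_assoc]
      exact hD D

theorem bst : BstStmt := by
  intro E A _ _ _ B l F hl hF
  obtain ⟨l', h1, h2, h3⟩ := main B l hl l (le_refl _) hl (mulD B F 1)
    (mulD_mem hF one_mem_sp)
  refine ⟨l', h1, h2, fun D hD => ?_⟩
  have h4 := h3 ⟨D, hD⟩
  have h5 : mulD (E := E) B F 1 ⟨D, hD⟩ = D F := by
    change 1 * D F = D F
    rw [one_mul]
  rwa [h5] at h4

end Pool.Agent.BSH.H5
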